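import Pool.Agent.K6.H27.PR.Base

set_option autoImplicit false

/-! # Record prime gaps with nested cores free of integers with at most `r` prime factors

For every `R` and every `0 < θ ≤ 1` there is `c > 0` such that for all large `x` there is ONE point
`n` of `(x, x + x^θ]` such that for all `r ≤ R` every integer at distance at most `c len r x` from `n`
has more than `r` prime factors (counted with multiplicity). Here

* `len 1 x = log x (log₂ x)² log₄ x / (log₃ x)²` is the record length for primes (starting files),
* `len 2 x = log x log₂ x` (starting files, `MP_c853c5_nt.NoAlmostPrimes`),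
* `len 3 x = log x (log₂ x)^(1/3)`,
* `len r x = log x / (log₃ x)^(r - 4)` for `r ≥ 4`; in particular `len 4 x = log x`.

New are all the cores with `r ≥ 3`. The average distance between the integers with at most `r` prime
factors is of the order `log x / (log₂ x)^(r - 1)`.

Method. The centre lies in the class `0` modulo the primes between `exp (log y log₃ y / (10 log₂ y))` and
`y = (log x) / 1000` and in random classes modulo the smaller primes; one choice serves all intervals and all
numbers of hits (`Pool.Agent.K6.H27.PR.pre`). The few integers with at most `r - 3` hits are hit directly by the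
primes between `y` and `100 y`, and those with `r - 2` or `r - 1` hits are hit twice or once more by the sieve
with double hits of helper877 (`Pool.Agent.TH877.M2.run_dbl`), in which a double hit costs only `(log₂ x)^(2/3)`
in place of `log₂ x`. -/

namespace Pool.Agent.Results.MP_028722_nt.AlmostPrimeFreeCores

/-- the length of the core free of integers with at most `r` prime factors (`r ≥ 1`) -/
noncomputable def len (r : ℕ) (x : ℝ) : ℝ :=
  if r ≤ 1 then Real.log x * Real.log (Real.log x) ^ 2 *
    Real.log (Real.log (Real.log (Real.log x))) / Real.log (Real.log (Real.log x)) ^ 2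
  else if r = 2 then Real.log x * Real.log (Real.log x)
  else if r = 3 then Real.log x * Real.log (Real.log x) ^ (1 / 3 : ℝ)
  else Real.log x / Real.log (Real.log (Real.log x)) ^ (r - 4)

/-- **Nested prime-free and almost-prime-free intervals.** -/
theorem result (R : ℕ) (θ : ℝ) (h0 : 0 < θ) (h1 : θ ≤ 1) :
    ∃ c : ℝ, 0 < c ∧ ∃ x₀ : ℝ, ∀ x : ℝ, x₀ ≤ x →
    ∃ n : ℕ, x < n ∧ (n : ℝ) ≤ x + x ^ θ ∧
      ∀ r : ℕ, 1 ≤ r → r ≤ R → ∀ m : ℕ, |(m : ℝ) - n| ≤ c * len r x →
        r < m.primeFactorsList.length := by
  obtain ⟨c, hc, X₁, hb⟩ := Pool.Agent.K6.H27.PR.base R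
  obtain ⟨X₂, hf⟩ := Pool.Agent.K6.H27.PR.HH_pow (θ / 100) (by positivity) (by linarith)
  have h2 : ∀ᶠ x : ℝ in Filter.atTop, X₁ ≤ x ^ θ := (tendsto_rpow_atTop h0).eventually_ge_atTop X₁
  obtain ⟨X₃, h3⟩ := Filter.eventually_atTop.1 h2
  refine ⟨c * (θ / 100 / 8), by positivity, max X₂ X₃, fun x hx => ?_⟩
  obtain ⟨a1, a2⟩ := hf x ((le_max_left _ _).trans hx)
  have hx0 : 0 < x := by linarith
  have hY : x ^ θ ≤ x := by
    calc x ^ θ ≤ x ^ (1 : ℝ) := Real.rpow_le_rpow_of_exponent_le a1.le h1
      _ = x := Real.rpow_one x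
  obtain ⟨n, n1, n2, n3⟩ := hb (x ^ θ) (h3 x ((le_max_right _ _).trans hx)) x hY
  refine ⟨n, n1, n2, fun r hr1 hrR m hm => n3 r hr1 hrR m (hm.trans ?_)⟩
  have e : (x ^ θ) ^ (1 / 100 : ℝ) = x ^ (θ / 100) := by
    rw [← Real.rpow_mul hx0.le]; congr 1; ring
  rw [e, mul_assoc]
  exact mul_le_mul_of_nonneg_left (a2 r) hc.le

end Pool.Agent.Results.MP_028722_nt.AlmostPrimeFreeCores
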