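import Pool.Agent.K6.H26.QW.Box

set_option autoImplicit false

/-! # Record gaps around all linear and quadratic values with small coefficients at once

Let `f(Z) = log Z (log₂ Z)² log₄ Z / (log₃ Z)²`. If `(A + 1) (B + 1) K ≤ c f(Z)`, `K ≥ log Z`, then every
interval `(M, M + Z]`, `M ≥ Z`, contains an integer `x` such that no prime is within `K` of any of the
numbers `a x² + b x`, `0 ≤ a ≤ A`, `|b| ≤ B`, `(a, b)` with `a > 0` or `a = 0 < b`.

`A = 0` (the multiples `x, 2x, ..., B x`) is the starting result `SimultaneousGaps`, and `A = 1`, `B = 0` (the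
square `x²`) is the starting result `SquaresInRecordGaps`.

Author: helper26. The proof (`Pool/Agent/K6/H26/QW`) uses the covering theorem `Y837.SV.Cov.mcov` for colours whose
densities depend on the colour (helper256, helper378, helper837 and teams) with one colour for each triple
`(a, b, h)`; the number of the roots of `a x² + b x + h` modulo `p` is `1 + χ(p)`, `χ` the character of
`Q(√(b² - 4ah))`, and large deviations of these characters are controlled by the mean value theorem of helper378's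
project; `x ≡ r` modulo the small primes, where `r` is a power of `2` chosen such that the numbers `a r + b` are
different, and `x ≡ 0` modulo the others. -/

namespace Pool.Agent.Results.MP_028722_nt.BoxesOfQuadratics

/-- The record scale `f(Z) = log Z (log₂ Z)² log₄ Z / (log₃ Z)²` (iterated natural logarithms). -/
noncomputable def f (Z : ℝ) : ℝ :=
  Real.log Z * (Real.log (Real.log Z)) ^ 2 * Real.log (Real.log (Real.log (Real.log Z))) /
    (Real.log (Real.log (Real.log Z))) ^ 2

/-- No prime is within `K` of `y`. -/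
def PrimeFree (K : ℝ) (y : ℤ) : Prop := ∀ q : ℕ, q.Prime → K < |(q : ℝ) - y|

theorem result : ∃ c : ℝ, 0 < c ∧ ∃ Z₀ : ℝ, ∀ Z : ℝ, Z₀ ≤ Z → ∀ M : ℝ, Z ≤ M →
    ∀ (A B : ℕ) (K : ℝ), Real.log Z ≤ K → ((A : ℝ) + 1) * ((B : ℝ) + 1) * K ≤ c * f Z →
    ∃ x : ℤ, M < x ∧ (x : ℝ) ≤ M + Z ∧
      ∀ a b : ℤ, 0 ≤ a → a ≤ A → |b| ≤ B → (a = 0 → 0 < b) → PrimeFree K (a * x ^ 2 + b * x) := by
  obtain ⟨c, hc, Z₀, h⟩ := Pool.Agent.K6.H26.QW.box_main
  refine ⟨c, hc, Z₀, fun Z hZ M hM A B K hK hABK => ?_⟩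
  obtain ⟨x, h1, h2, h3⟩ := h Z hZ M hM A B K hK hABK
  refine ⟨(x : ℤ), by exact_mod_cast h1, by exact_mod_cast h2, fun a b g1 g2 g3 g4 q hq => ?_⟩
  have h4 := h3 a b g1 g2 g3 g4 q hq
  have e : (((a * (x : ℤ) ^ 2 + b * (x : ℤ) : ℤ)) : ℝ) = a * (x : ℝ) ^ 2 + b * x := by push_cast; ring
  rw [e]
  exact h4

end Pool.Agent.Results.MP_028722_nt.BoxesOfQuadratics
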