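import Pool.Agent.Results.MP_028722_nt.AlmostPrimeFreeCores
import Pool.Agent.K6.H83.MC.Pow

set_option autoImplicit false
set_option maxHeartbeats 4000000

/-! # Record prime gaps along Mills-type sequences

Mills: there is a constant `A` such that `⌊A^(3^k)⌋` is prime for all `k`. Here is the opposite: for every
`lam > 1` and every `s < 1` the set of the reals `t` such that ALL members of the sequence `v_k t^(n_k)` from
some point on lie in a record prime gap, with nested cores free of the integers with at most `r` prime factors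
for all `r ≤ R`, has Hausdorff dimension at least `s` in every interval. The sequence is arbitrary, as long as
its exponents are positive and nondecreasing and every member is at least the `lam`-th power of the previous
one; for instance `t^(3^k)` or `t * 2^(3^k)`.

Method: the interval theorem `MP_028722_nt.AlmostPrimeFreeCores` (one point of `(x, x + x^θ]` with all the
cores) and a Cantor set construction: `Pool.Agent.K6.H83.MC.cantor` bounds the dimension of the limit set of a
division scheme from below with a Hölder map onto an interval, and `Pool.Agent.K6.H83.MC.mills` applies it to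
fast growing functions. -/

namespace Pool.Agent.Results.MP_028722_nt.MillsRecordGaps

open Filter

/-- the length of the core free of integers with at most `r` prime factors (`r ≥ 1`) -/
noncomputable def len (r : ℕ) (x : ℝ) : ℝ :=
  if r ≤ 1 then Real.log x * Real.log (Real.log x) ^ 2 *
    Real.log (Real.log (Real.log (Real.log x))) / Real.log (Real.log (Real.log x)) ^ 2
  else if r = 2 then Real.log x * Real.log (Real.log x)
  else if r = 3 then Real.log x * Real.log (Real.log x) ^ (1 / 3 : ℝ)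
  else Real.log x / Real.log (Real.log (Real.log x)) ^ (r - 4)

/-- `t` lies in a record prime gap, and around `t` there are nested intervals of the lengths `c len r t` in
which all integers have more than `r` prime factors (counted with multiplicity), for all `1 ≤ r ≤ R` -/
def Deep (R : ℕ) (c t : ℝ) : Prop :=
  ∀ r : ℕ, 1 ≤ r → r ≤ R → ∀ m : ℕ, |(m : ℝ) - t| ≤ c * len r t → r < m.primeFactorsList.length

theorem ev_logs (K : ℝ) : ∀ᶠ x : ℝ in atTop, K ≤ Real.log x ∧ K ≤ Real.log (Real.log x) ∧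
    K ≤ Real.log (Real.log (Real.log x)) ∧ K ≤ Real.log (Real.log (Real.log (Real.log x))) := by
  have t1 := Real.tendsto_log_atTop
  have t2 := t1.comp t1
  have t3 := t1.comp t2
  have t4 := t1.comp t3
  filter_upwards [t1.eventually_ge_atTop K, t2.eventually_ge_atTop K, t3.eventually_ge_atTop K,
    t4.eventually_ge_atTop K] with x h1 h2 h3 h4
  exact ⟨h1, h2, h3, h4⟩

/-- `len r` changes by a bounded factor between `x` and `x ^ 2` -/
theorem len_slow : ∀ᶠ x : ℝ in atTop, ∀ t : ℝ, x ≤ t → t ≤ x ^ 2 → ∀ r : ℕ,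
    len r t ≤ 16 * len r x := by
  filter_upwards [ev_logs 1, eventually_gt_atTop (1 : ℝ)] with x hx hx1 t ht1 ht2 r
  obtain ⟨h1, h2, h3, h4⟩ := hx
  have hx0 : 0 < x := by linarith
  have ht0 : 0 < t := by linarith
  have l2 : Real.log 2 ≤ 1 := by
    have := Real.log_two_lt_d9; linarith
  set a1 := Real.log x with ha1
  set a2 := Real.log a1 with ha2
  set a3 := Real.log a2 with ha3
  set a4 := Real.log a3 with ha4
  set b1 := Real.log t with hb1
  set b2 := Real.log b1 with hb2
  set b3 := Real.log b2 with hb3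
  set b4 := Real.log b3 with hb4
  have u1 : b1 ≤ 2 * a1 := by
    have := Real.log_le_log ht0 ht2
    rw [Real.log_pow] at this
    exact_mod_cast this
  have w1 : a1 ≤ b1 := Real.log_le_log hx0 ht1
  have w2 : a2 ≤ b2 := Real.log_le_log (by linarith) w1
  have w3 : a3 ≤ b3 := Real.log_le_log (by linarith) w2
  have w4 : a4 ≤ b4 := Real.log_le_log (by linarith) w3
  have u2 : b2 ≤ 2 * a2 := by
    have := Real.log_le_log (by linarith) u1
    rw [Real.log_mul (by norm_num) (by linarith)] at this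
    linarith
  have u3 : b3 ≤ 2 * a3 := by
    have := Real.log_le_log (by linarith) u2
    rw [Real.log_mul (by norm_num) (by linarith)] at this
    linarith
  have u4 : b4 ≤ 2 * a4 := by
    have := Real.log_le_log (by linarith) u3
    rw [Real.log_mul (by norm_num) (by linarith)] at this
    linarith
  have p1 : 0 < a1 := by linarith
  have p2 : 0 < a2 := by linarith
  have p3 : 0 < a3 := by linarith
  have p4 : 0 < a4 := by linarith
  have q1 : 0 < b1 := by linarith
  have q2 : 0 < b2 := by linarith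
  have q3 : 0 < b3 := by linarith
  have q4 : 0 < b4 := by linarith
  unfold len
  split_ifs with r1 r2 r3
  · calc b1 * b2 ^ 2 * b4 / b3 ^ 2 ≤ (2 * a1) * (2 * a2) ^ 2 * (2 * a4) / a3 ^ 2 := by gcongr
      _ = 16 * (a1 * a2 ^ 2 * a4 / a3 ^ 2) := by ring
  · calc b1 * b2 ≤ (2 * a1) * (2 * a2) := by gcongr
      _ = 4 * (a1 * a2) := by ring
      _ ≤ 16 * (a1 * a2) := by
        have : 0 < a1 * a2 := by positivity
        linarith
  · have e1 : b2 ^ (1 / 3 : ℝ) ≤ 2 * a2 ^ (1 / 3 : ℝ) := by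
      calc b2 ^ (1 / 3 : ℝ) ≤ (2 * a2) ^ (1 / 3 : ℝ) :=
            Real.rpow_le_rpow q2.le u2 (by norm_num)
        _ = 2 ^ (1 / 3 : ℝ) * a2 ^ (1 / 3 : ℝ) := Real.mul_rpow (by norm_num) p2.le
        _ ≤ 2 ^ (1 : ℝ) * a2 ^ (1 / 3 : ℝ) := by
          apply mul_le_mul_of_nonneg_right _ (by positivity)
          exact Real.rpow_le_rpow_of_exponent_le (by norm_num) (by norm_num)
        _ = _ := by rw [Real.rpow_one]
    calc b1 * b2 ^ (1 / 3 : ℝ) ≤ (2 * a1) * (2 * a2 ^ (1 / 3 : ℝ)) := by gcongr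
      _ = 4 * (a1 * a2 ^ (1 / 3 : ℝ)) := by ring
      _ ≤ 16 * (a1 * a2 ^ (1 / 3 : ℝ)) := by
        have : 0 < a1 * a2 ^ (1 / 3 : ℝ) := by positivity
        linarith
  · calc b1 / b3 ^ (r - 4) ≤ 2 * a1 / a3 ^ (r - 4) := by gcongr
      _ = 2 * (a1 / a3 ^ (r - 4)) := by ring
      _ ≤ 16 * (a1 / a3 ^ (r - 4)) := by
        have : 0 < a1 / a3 ^ (r - 4) := by positivity
        linarith

/-- the lengths tend to infinity -/
theorem len_large (K : ℝ) (R : ℕ) : ∀ᶠ x : ℝ in atTop, ∀ r : ℕ, r ≤ R → K ≤ len r x := by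
  have h1 : ∀ᶠ y : ℝ in atTop, max K 1 * y ^ R ≤ Real.exp y := by
    have := Real.tendsto_exp_div_pow_atTop R
    filter_upwards [this.eventually_ge_atTop (max K 1), eventually_gt_atTop (0 : ℝ)] with y hy hy0
    rw [le_div_iff₀ (by positivity)] at hy
    exact hy
  have t1 := Real.tendsto_log_atTop
  have t3 := t1.comp (t1.comp t1)
  filter_upwards [ev_logs 1, eventually_gt_atTop (1 : ℝ), t3.eventually h1] with x hx hx1 hx2 r hr
  obtain ⟨h1, h2, h3, h4⟩ := hx
  simp only [Function.comp] at hx2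
  set a1 := Real.log x with ha1
  set a2 := Real.log a1 with ha2
  set a3 := Real.log a2 with ha3
  set a4 := Real.log a3 with ha4
  have p1 : 0 < a1 := by linarith
  have p2 : 0 < a2 := by linarith
  have p3 : 0 < a3 := by linarith
  have p4 : 0 < a4 := by linarith
  have e1 : Real.exp a3 = a2 := Real.exp_log p2
  have e2 : a2 ≤ a1 := by
    have := Real.log_le_sub_one_of_pos p1
    linarith
  have e3 : a3 ≤ a2 := by
    have := Real.log_le_sub_one_of_pos p2
    linarith
  have e4 : max K 1 * a3 ^ R ≤ a1 := by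
    rw [e1] at hx2
    linarith
  have e5 : K ≤ a1 := by
    have : 1 ≤ a3 ^ R := one_le_pow₀ h3
    have h5 : K ≤ max K 1 := le_max_left _ _
    have h6 : 1 ≤ max K 1 := le_max_right _ _
    nlinarith
  have e6 : K ≤ a1 / a3 ^ (r - 4) := by
    rw [le_div_iff₀ (by positivity)]
    refine le_trans ?_ e4
    have h5 : a3 ^ (r - 4) ≤ a3 ^ R := pow_le_pow_right₀ h3 (by omega)
    calc K * a3 ^ (r - 4) ≤ max K 1 * a3 ^ (r - 4) := by
          apply mul_le_mul_of_nonneg_right (le_max_left _ _); positivity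
      _ ≤ max K 1 * a3 ^ R := by
          apply mul_le_mul_of_nonneg_left h5
          exact le_trans zero_le_one (le_max_right _ _)
  unfold len
  split_ifs with r1 r2 r3
  · refine e5.trans ?_
    rw [le_div_iff₀ (by positivity)]
    calc a1 * a3 ^ 2 ≤ a1 * a2 ^ 2 := by gcongr
      _ = a1 * a2 ^ 2 * 1 := (mul_one _).symm
      _ ≤ a1 * a2 ^ 2 * a4 := by gcongr
  · refine e5.trans ?_
    calc a1 = a1 * 1 := (mul_one _).symm
      _ ≤ a1 * a2 := by gcongr
  · refine e5.trans ?_
    have : 1 ≤ a2 ^ (1 / 3 : ℝ) := Real.one_le_rpow h2 (by norm_num)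
    calc a1 = a1 * 1 := (mul_one _).symm
      _ ≤ a1 * a2 ^ (1 / 3 : ℝ) := by gcongr
  · exact e6

/-- every short interval contains a short interval of deep points -/
theorem deep_short (R : ℕ) (θ : ℝ) (h0 : 0 < θ) (h1 : θ ≤ 1) : ∃ c : ℝ, 0 < c ∧ ∃ X₀ : ℝ,
    ∀ x : ℝ, X₀ ≤ x → ∃ y, x ≤ y ∧ y ≤ x + x ^ θ ∧ ∀ t, y ≤ t → t ≤ y + 1 / 2 → Deep R c t := by
  obtain ⟨c, hc, x₀, hb⟩ := AlmostPrimeFreeCores.result R θ h0 h1
  obtain ⟨X₀, hX⟩ := eventually_atTop.1 ((len_slow.and (len_large (1 / c) R)).and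
    ((eventually_ge_atTop x₀).and (eventually_ge_atTop (3 : ℝ))))
  refine ⟨c / 32, by positivity, X₀, fun x hx => ?_⟩
  obtain ⟨⟨e1, e2⟩, e3, e4⟩ := hX x hx
  obtain ⟨n, n1, n2, n3⟩ := hb x e3
  refine ⟨n, n1.le, n2, fun t ht1 ht2 r hr1 hr2 m hm => n3 r hr1 hr2 m ?_⟩
  have f1 : x ^ θ ≤ x := by
    calc x ^ θ ≤ x ^ (1 : ℝ) := Real.rpow_le_rpow_of_exponent_le (by linarith) h1
      _ = x := Real.rpow_one x
  have f2 : t ≤ x ^ 2 := by nlinarith
  have f3 := e1 t (by linarith) f2 r
  have f4 := e2 r hr2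
  rw [div_le_iff₀ hc] at f4
  have f5 : |(m : ℝ) - n| ≤ |(m : ℝ) - t| + |t - n| := abs_sub_le _ _ _
  have f6 : |t - n| ≤ 1 / 2 := by rw [abs_of_nonneg (by linarith)]; linarith
  have f7 : c / 32 * len r t ≤ c / 32 * (16 * len r x) := by gcongr
  have f8 : len r x = AlmostPrimeFreeCores.len r x := rfl
  rw [← f8]
  linarith

/-- **Record prime gaps along Mills-type sequences.** -/
theorem result (lam s : ℝ) (hlam : 1 < lam) (hs : s < 1) (R : ℕ) : ∃ c : ℝ, 0 < c ∧
    ∀ v n : ℕ → ℝ, 0 < n 0 → Monotone n → (∀ k, 0 < v k) → ∀ a b : ℝ, 0 ≤ a → a < b →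
    (∀ t, a < t → t < b → 1 < v 0 * t ^ n 0) →
    (∀ k t, a < t → t < b → (v k * t ^ n k) ^ lam ≤ v (k + 1) * t ^ n (k + 1)) →
    ENNReal.ofReal s ≤
      dimH {t : ℝ | a < t ∧ t < b ∧ ∃ k₀, ∀ k, k₀ ≤ k → Deep R c (v k * t ^ n k)} := by
  have hl0 : 0 < lam := by linarith
  have hδ0 : 0 < 1 - 1 / lam := by
    have : 1 / lam < 1 := by rw [div_lt_one hl0]; exact hlam
    linarith
  set θ := min 1 ((1 - 1 / lam) * (1 - s) / 2) with hθ
  have hD : 0 < (1 - 1 / lam) * (1 - s) := mul_pos hδ0 (by linarith)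
  have hθ0 : 0 < θ := lt_min one_pos (by linarith)
  have hθ1 : θ ≤ 1 := min_le_left _ _
  have hθ2 : θ < (1 - 1 / lam) * (1 - s) := lt_of_le_of_lt (min_le_right _ _) (by linarith)
  obtain ⟨c, hc, X₀, hX⟩ := deep_short R θ hθ0 hθ1
  exact ⟨c, hc, fun v n hn0 hn hv a b ha hab hone hgrow =>
    Pool.Agent.K6.H83.MC.mills_pow hlam ha hab hn0 hn hv hone hgrow s θ hs hθ0.le hθ2
      (fun _ => Deep R c) X₀ (fun _ => hX)⟩

end Pool.Agent.Results.MP_028722_nt.MillsRecordGaps
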