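import Pool.Agent.H312R2.RG.Fin
import Pool.Agent.K6.H27.RC.Chain

set_option autoImplicit false

/-!
# Chains of prime gaps whose primes have neighbours with many prime factors

Let `f(x) = log x (log₂ x)² log₄ x / (log₃ x)²` be the size of the largest gaps that are known to occur among the
primes up to `x`. At every scale `G` between `log x` and `c f(x)` there are at least `x^(7/8)` chains of `k + 1`
consecutive primes up to `x`, in a given residue class modulo a squarefree number, with all `k` gaps between `c G`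
and `G`, such that for every shift `h` with `0 < |h| ≤ c G` the number `p + h` has at least `w(h)` distinct prime
factors for EVERY prime `p` of the chain, where `w` is any function of total sum at most `c log x / log log x`.

The sum of `w` is best possible up to the constant: an integer up to `2 x` has at most `(1 + o(1)) log x / log log x`
distinct prime factors. Two special cases are given below: `p - 1` and `p + 1` have the maximal order of the number
of prime factors for all the primes of a chain of record gaps (`plus_minus_one`); every `m ≠ p` at distance at most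
`c log x / (R log log x)` from a prime `p` of the chain has at least `R` distinct prime factors (`windows`).

Method: the Maynard-Tao weights inside the windows of the record sieve (`Pool.Agent.H312R2.RG`). The record covering is
done with the primes up to `log x / 10^5` only (`Pool.Agent.H362R2.RQ.covR0` at `x^(1/100)`); the primes between
`log x / 10^5` and `log x / 10^3`, a positive proportion of all the sieving primes, are free and hit the prescribed
positions, avoiding the classes of the tuple (`Pool.Agent.K6.H27.RC.covD`).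
-/

namespace Pool.Agent.Results.MP_028722_nt.RecordChainsRichNeighbours

/-- The record scale `f(x) = log x (log₂ x)² log₄ x / (log₃ x)²` (iterated natural logarithms). -/
noncomputable def f (x : ℝ) : ℝ :=
  Real.log x * (Real.log (Real.log x)) ^ 2 * Real.log (Real.log (Real.log (Real.log x))) /
    (Real.log (Real.log (Real.log x))) ^ 2

/-- The `i`-th prime, numbered from `p 0 = 2`. -/
noncomputable def p (i : ℕ) : ℕ := Nat.nth Nat.Prime i

/-- The gap after the prime `p i`. -/
noncomputable def d (i : ℕ) : ℝ := (p (i + 1) : ℝ) - p i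

/-- The number of distinct prime factors of `m` (0 if `m = 0`). -/
def omega (m : ℤ) : ℕ := m.natAbs.primeFactors.card

/-- `p n, …, p (n + k)` are at most `x` and `≡ a (mod q)`, the `k` gaps between them lie between `c G` and `G`, and
for every `h ∈ H` and every `i ≤ k` the integer `p (n + i) + h` has at least `w h` distinct prime factors. -/
def Chain (k q a : ℕ) (H : Finset ℤ) (w : ℤ → ℕ) (c G x : ℝ) (n : ℕ) : Prop :=
  (p (n + k) : ℝ) ≤ x ∧ (∀ i < k, c * G ≤ d (n + i) ∧ d (n + i) ≤ G) ∧
    ∀ i ≤ k, p (n + i) ≡ a [MOD q] ∧ ∀ h ∈ H, w h ≤ omega ((p (n + i) : ℤ) + h)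

/-- For every `k` there is `c > 0` such that for all squarefree `q`, all `a` prime to `q` and all large `x`: for all
`G` with `log x ≤ G ≤ c f(x)`, all finite sets `H` of nonzero integers of absolute value at most `c G` and all
`w : H → ℕ` of total sum at most `c log x / log log x` there are at least `x^(7/8)` chains as in `Chain`. -/
theorem result : ∀ k : ℕ, ∃ c : ℝ, 0 < c ∧ ∀ q a : ℕ, Squarefree q → a.Coprime q → ∃ x₀ : ℝ, ∀ x : ℝ, x₀ ≤ x →
    ∀ G : ℝ, Real.log x ≤ G → G ≤ c * f x →
    ∀ (H : Finset ℤ) (w : ℤ → ℕ), (∀ h ∈ H, h ≠ 0 ∧ |(h : ℝ)| ≤ c * G) →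
    ∑ h ∈ H, (w h : ℝ) ≤ c * (Real.log x / Real.log (Real.log x)) →
    x ^ (7 / 8 : ℝ) ≤ (Set.ncard {n : ℕ | Chain k q a H w c G x n} : ℝ) := by
  classical
  intro k
  obtain ⟨c, hc, h⟩ := Pool.Agent.K6.H27.RC.chains_of (Pool.Agent.K6.H27.RC.mtd_of
    Pool.Agent.H378R2.sieveAsymp_holds Pool.Agent.H378R2.bvrel_holds Pool.Agent.K6.H27.RC.covD
    Pool.Agent.H312R2.RG.weights) k
  refine ⟨c, hc, fun q a hq ha => ?_⟩
  obtain ⟨x₀, hx₀⟩ := Filter.eventually_atTop.1 (h q a hq ha)
  refine ⟨x₀, fun x hx G hG1 hG2 H w hH hw => ?_⟩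
  refine (hx₀ x hx G hG1 hG2 H w hH (by push_cast; exact hw)).trans ?_
  have hfin : {n : ℕ | Chain k q a H w c G x n}.Finite := by
    refine (Set.finite_Iic ⌊x⌋₊).subset ?_
    rintro n ⟨h1, -⟩
    refine Nat.le_floor (le_trans ?_ h1)
    have h2 : n + k ≤ Nat.nth Nat.Prime (n + k) :=
      (Nat.nth_strictMono Nat.infinite_setOfPred_prime).le_apply
    exact_mod_cast (Nat.le_add_right n k).trans h2
  rw [Nat.cast_le, ← Set.ncard_coe_finset]
  refine Set.ncard_le_ncard ?_ hfin
  intro n hn
  rw [Finset.mem_coe, Finset.mem_filter] at hn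
  refine ⟨hn.2.1, hn.2.2.1, fun i hi => ⟨(hn.2.2.2 i hi).1, fun h hh => ?_⟩⟩
  exact ((hn.2.2.2 i hi).2 h hh).trans (Finset.card_le_card (Finset.filter_subset _ _))

theorem ncard_mono {P Q : ℕ → Prop} {k : ℕ} {x : ℝ} (h : ∀ n, P n → Q n) (hQ : ∀ n, Q n → (p (n + k) : ℝ) ≤ x) :
    (Set.ncard {n : ℕ | P n} : ℝ) ≤ (Set.ncard {n : ℕ | Q n} : ℝ) := by
  rw [Nat.cast_le]
  refine Set.ncard_le_ncard (fun n hn => h n hn) ((Set.finite_Iic ⌊x⌋₊).subset fun n hn => ?_)
  refine Nat.le_floor (le_trans ?_ (hQ n hn))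
  have h2 : n + k ≤ p (n + k) := (Nat.nth_strictMono Nat.infinite_setOfPred_prime).le_apply
  exact_mod_cast (Nat.le_add_right n k).trans h2

theorem tendsto_quot : Filter.Tendsto (fun x : ℝ => Real.log x / Real.log (Real.log x)) Filter.atTop Filter.atTop := by
  have h1 : Filter.Tendsto (fun L : ℝ => L / Real.log L) Filter.atTop Filter.atTop := by
    rw [Filter.tendsto_atTop]
    intro b
    have hc : (0 : ℝ) < 1 / (|b| + 1) := by positivity
    have h := Real.isLittleO_log_id_atTop.def hc
    filter_upwards [h, Filter.eventually_ge_atTop (Real.exp 1)] with L hL hL1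
    have he : (1 : ℝ) ≤ Real.exp 1 := Real.one_le_exp (by norm_num)
    have hlog : 1 ≤ Real.log L := by
      rw [← Real.log_exp 1]; exact Real.log_le_log (Real.exp_pos _) hL1
    have hL' : Real.log L ≤ 1 / (|b| + 1) * L := by
      rwa [Real.norm_of_nonneg (by linarith), id, Real.norm_of_nonneg (by linarith)] at hL
    rw [le_div_iff₀ (by linarith)]
    have h3 : (|b| + 1) * Real.log L ≤ L := by
      calc (|b| + 1) * Real.log L ≤ (|b| + 1) * (1 / (|b| + 1) * L) :=
            mul_le_mul_of_nonneg_left hL' (by positivity)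
        _ = L := by field_simp
    have h4 : b * Real.log L ≤ (|b| + 1) * Real.log L := by
      apply mul_le_mul_of_nonneg_right _ (by linarith)
      linarith [le_abs_self b]
    linarith
  exact h1.comp Real.tendsto_log_atTop

theorem log_le_f (c : ℝ) (hc : 0 < c) : ∀ᶠ x : ℝ in Filter.atTop, Real.log x ≤ c * f x := by
  filter_upwards [Pool.Agent.H312R2.RG.c1_ff_log (1 / c)] with x hx
  have h1 := mul_le_mul_of_nonneg_left hx hc.le
  have h2 : c * (1 / c * Real.log x) = Real.log x := by field_simp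
  rw [h2] at h1
  exact h1

/-- Special case: chains of record gaps for which `p - 1` and `p + 1` have the maximal order of the number of distinct
prime factors, for every prime `p` of the chain. -/
theorem plus_minus_one : ∀ k : ℕ, ∃ c : ℝ, 0 < c ∧ ∃ x₀ : ℝ, ∀ x : ℝ, x₀ ≤ x →
    x ^ (7 / 8 : ℝ) ≤ (Set.ncard {n : ℕ | (p (n + k) : ℝ) ≤ x ∧ (∀ i < k, c * f x ≤ d (n + i)) ∧
      ∀ i ≤ k, c * (Real.log x / Real.log (Real.log x)) ≤ omega ((p (n + i) : ℤ) - 1) ∧
        c * (Real.log x / Real.log (Real.log x)) ≤ omega ((p (n + i) : ℤ) + 1)} : ℝ) := by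
  intro k
  obtain ⟨c, hc, h⟩ := result k
  obtain ⟨x₁, hx₁⟩ := h 1 0 squarefree_one (Nat.coprime_one_right 0)
  obtain ⟨x₂, hx₂⟩ := Filter.eventually_atTop.1 ((tendsto_quot.eventually_ge_atTop (6 / c)).and
    ((log_le_f c hc).and (((log_le_f (c ^ 2) (by positivity)).and (Real.tendsto_log_atTop.eventually_ge_atTop 1)))))
  refine ⟨min (c ^ 2) (c / 3), lt_min (by positivity) (by positivity), max x₁ x₂, fun x hx => ?_⟩
  obtain ⟨hL, hf, hf2, hlog⟩ := hx₂ x ((le_max_right _ _).trans hx)
  set L := Real.log x / Real.log (Real.log x) with hLdef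
  have hL0 : 0 < L := lt_of_lt_of_le (by positivity) hL
  have hfpos : 0 < f x := by
    by_contra hcon
    push Not at hcon
    have := mul_nonpos_of_nonneg_of_nonpos hc.le hcon
    linarith
  have h1 := hx₁ x ((le_max_left _ _).trans hx) (c * f x) hf le_rfl {1, -1} (fun _ => ⌈c / 3 * L⌉₊) (by
    intro a ha
    rw [Finset.mem_insert, Finset.mem_singleton] at ha
    have h1 : 1 ≤ c * (c * f x) := by nlinarith
    rcases ha with rfl | rfl
    · exact ⟨by norm_num, by rw [Int.cast_one, abs_one]; exact h1⟩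
    · exact ⟨by norm_num, by rw [Int.cast_neg, Int.cast_one, abs_neg, abs_one]; exact h1⟩) (by
    rw [Finset.sum_pair (by norm_num)]
    have h2 : (⌈c / 3 * L⌉₊ : ℝ) < c / 3 * L + 1 := Nat.ceil_lt_add_one (by positivity)
    rw [div_le_iff₀ hc] at hL
    rw [← hLdef]
    linarith)
  refine h1.trans (ncard_mono (k := k) (x := x) ?_ (fun n hn => hn.1))
  rintro n ⟨h2, h3, h4⟩
  have e1 : min (c ^ 2) (c / 3) * f x ≤ c * (c * f x) := by
    calc min (c ^ 2) (c / 3) * f x ≤ c ^ 2 * f x := mul_le_mul_of_nonneg_right (min_le_left _ _) hfpos.le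
      _ = _ := by ring
  have e2 : min (c ^ 2) (c / 3) * L ≤ (⌈c / 3 * L⌉₊ : ℝ) :=
    (mul_le_mul_of_nonneg_right (min_le_right _ _) hL0.le).trans (Nat.le_ceil _)
  refine ⟨h2, fun i hi => e1.trans (h3 i hi).1, fun i hi => ⟨?_, ?_⟩⟩
  · have h5 := (h4 i hi).2 (-1) (by simp)
    exact e2.trans (by exact_mod_cast h5)
  · have h5 := (h4 i hi).2 1 (by simp)
    exact e2.trans (by exact_mod_cast h5)

/-- Special case: chains of record gaps such that for every prime `p` of the chain every `m ≠ p` at distance at most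
`c log x / (R log log x)` from `p` has at least `R` distinct prime factors, uniformly in `R`. -/
theorem windows : ∀ k : ℕ, ∃ c : ℝ, 0 < c ∧ ∃ x₀ : ℝ, ∀ x : ℝ, x₀ ≤ x → ∀ R : ℕ, 1 ≤ R →
    x ^ (7 / 8 : ℝ) ≤ (Set.ncard {n : ℕ | (p (n + k) : ℝ) ≤ x ∧ (∀ i < k, c * f x ≤ d (n + i)) ∧
      ∀ i ≤ k, ∀ m : ℤ, m ≠ p (n + i) → |(m : ℝ) - p (n + i)| ≤ c * (Real.log x / (R * Real.log (Real.log x))) →
        R ≤ omega m} : ℝ) := by
  intro k
  obtain ⟨c, hc, h⟩ := result k
  obtain ⟨x₁, hx₁⟩ := h 1 0 squarefree_one (Nat.coprime_one_right 0)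
  obtain ⟨x₂, hx₂⟩ := Filter.eventually_atTop.1 ((tendsto_quot.eventually_ge_atTop (6 / c)).and
    ((log_le_f c hc).and (((log_le_f (c ^ 2) (by positivity)).and
      (((Real.tendsto_log_atTop.comp Real.tendsto_log_atTop).eventually_ge_atTop 1))))))
  refine ⟨min (c ^ 2) (min (c / 2) 1), lt_min (by positivity) (lt_min (by positivity) one_pos), max x₁ x₂,
    fun x hx R hR => ?_⟩
  obtain ⟨hL, hf, hf2, hll⟩ := hx₂ x ((le_max_right _ _).trans hx)
  simp only [Function.comp] at hll
  set c' := min (c ^ 2) (min (c / 2) 1) with hc'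
  have hc'1 : c' ≤ c ^ 2 := min_le_left _ _
  have hc'2 : c' ≤ c / 2 := (min_le_right _ _).trans (min_le_left _ _)
  have hc'3 : c' ≤ 1 := (min_le_right _ _).trans (min_le_right _ _)
  have hc'0 : 0 < c' := lt_min (by positivity) (lt_min (by positivity) one_pos)
  set l := Real.log x with hl
  set l2 := Real.log l with hl2
  have hl2' : l2 ≤ l := by
    have hl0 : 0 < l := by
      by_contra hcon
      push Not at hcon
      have : l / l2 ≤ 0 := div_nonpos_of_nonpos_of_nonneg hcon (by linarith)
      have : 0 < 6 / c := by positivity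
      linarith
    have := Real.log_le_sub_one_of_pos hl0
    linarith
  have hl1 : 1 ≤ l := hll.trans hl2'
  have hRr : (1 : ℝ) ≤ R := by exact_mod_cast hR
  have hfpos : 0 < f x := by
    by_contra hcon
    push Not at hcon
    have := mul_nonpos_of_nonneg_of_nonpos hc.le hcon
    linarith
  set M : ℕ := ⌊c' * (l / (R * l2))⌋₊ with hM
  have hMle : (M : ℝ) ≤ c' * (l / (R * l2)) := Nat.floor_le (by positivity)
  have hq : l / (R * l2) ≤ l := div_le_self (by linarith) (by nlinarith)
  have hq' : (R : ℝ) * (l / (R * l2)) = l / l2 := by field_simp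
  have hMl : (M : ℝ) ≤ l := hMle.trans (by
    calc c' * (l / (R * l2)) ≤ 1 * l := mul_le_mul hc'3 hq (by positivity) (by norm_num)
      _ = l := one_mul l)
  have h1 := hx₁ x ((le_max_left _ _).trans hx) (c * f x) hf le_rfl ((Finset.Icc (-(M : ℤ)) M).erase 0)
    (fun _ => R) (by
    intro a ha
    rw [Finset.mem_erase, Finset.mem_Icc] at ha
    refine ⟨ha.1, ?_⟩
    have h1 : |(a : ℝ)| ≤ M := by
      rw [abs_le]
      exact ⟨by exact_mod_cast ha.2.1, by exact_mod_cast ha.2.2⟩
    have h2 : c ^ 2 * f x = c * (c * f x) := by ring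
    linarith) (by
    rw [Finset.sum_const, nsmul_eq_mul, Finset.card_erase_of_mem (by
      rw [Finset.mem_Icc]; constructor <;> omega), Int.card_Icc]
    have h2 : ((M : ℤ) + 1 - (-(M : ℤ))).toNat - 1 = 2 * M := by omega
    rw [h2]
    push_cast
    have h3 : (M : ℝ) * R ≤ c' * (l / (R * l2)) * R := mul_le_mul_of_nonneg_right hMle (by linarith)
    have h4 : c' * (l / (R * l2)) * R = c' * (l / l2) := by rw [mul_assoc, mul_comm _ (R : ℝ), hq']
    have h5 : c' * (l / l2) ≤ c / 2 * (l / l2) := mul_le_mul_of_nonneg_right hc'2 (by positivity)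
    linarith)
  refine h1.trans (ncard_mono (k := k) (x := x) ?_ (fun n hn => hn.1))
  rintro n ⟨h2, h3, h4⟩
  have e1 : c' * f x ≤ c * (c * f x) := by
    calc c' * f x ≤ c ^ 2 * f x := mul_le_mul_of_nonneg_right hc'1 hfpos.le
      _ = _ := by ring
  refine ⟨h2, fun i hi => e1.trans (h3 i hi).1, fun i hi m hm hmd => ?_⟩
  have h6 : (m - p (n + i)).natAbs ≤ M := by
    apply Nat.le_floor
    rw [Nat.cast_natAbs]
    push_cast
    exact hmd
  have h5 := (h4 i hi).2 (m - p (n + i)) (by
    rw [Finset.mem_erase, Finset.mem_Icc]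
    refine ⟨fun h0 => hm (by linarith), by omega, by omega⟩)
  rwa [add_sub_cancel] at h5

end Pool.Agent.Results.MP_028722_nt.RecordChainsRichNeighbours
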